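import Pool.Agent.W95.BK.Stm

set_option autoImplicit false

open Polynomial Topology Filter MeasureTheory
open scoped ENNReal

namespace Pool.Agent.W298.BK.Gen

open Pool.Agent.W95.BK

universe u

theorem dvg : S_DVG.{u} := by
  intro K _ _ _ s t hs hst
  obtain ⟨p, hp⟩ := NormedField.exists_one_lt_norm K
  have hts : 1 < t / s := by rwa [lt_div_iff₀ hs, one_mul]
  obtain ⟨n, hn⟩ := pow_unbounded_of_one_lt ‖p‖ hts
  have hn0 : n ≠ 0 := by
    rintro rfl
    rw [pow_zero] at hn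
    linarith
  obtain ⟨q, hq⟩ := IsAlgClosed.exists_pow_nat_eq p (Nat.pos_of_ne_zero hn0)
  have hqn : ‖q‖ ^ n = ‖p‖ := by rw [← norm_pow, hq]
  have hq1 : 1 < ‖q‖ := by
    by_contra h
    push Not at h
    have := pow_le_one₀ (norm_nonneg q) h (n := n)
    rw [hqn] at this
    linarith
  have hqt : ‖q‖ < t / s := by
    apply lt_of_pow_lt_pow_left₀ n (by positivity)
    rw [hqn]
    exact hn
  obtain ⟨k, hk1, hk2⟩ := exists_mem_Ico_zpow hs hq1
  refine ⟨q ^ (k + 1), ?_, ?_⟩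
  · rw [norm_zpow]
    exact hk2
  · rw [norm_zpow, zpow_add_one₀ (by positivity)]
    rw [lt_div_iff₀ hs] at hqt
    calc ‖q‖ ^ k * ‖q‖ ≤ s * ‖q‖ := mul_le_mul_of_nonneg_right hk1 (norm_nonneg q)
      _ = ‖q‖ * s := mul_comm _ _
      _ < t := hqt

lemma prod_ge_one {ι : Type*} (S : Finset ι) (x : ι → ℝ) (h0 : ∀ i ∈ S, 0 ≤ x i)
    (h1 : ∀ i ∈ S, x i ≤ 1) (hp : ∏ i ∈ S, x i = 1) : ∀ i ∈ S, x i = 1 := by
  classical
  intro i hi
  have h2 := Finset.mul_prod_erase S x hi
  rw [hp] at h2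
  have h3 : ∏ j ∈ S.erase i, x j ≤ 1 :=
    Finset.prod_le_one (fun j hj => h0 j (Finset.mem_of_mem_erase hj))
      (fun j hj => h1 j (Finset.mem_of_mem_erase hj))
  have h4 := h0 i hi
  have h5 := h1 i hi
  nlinarith

/-- generic points of the unit disc -/
lemma gen_unit (K : Type u) [NontriviallyNormedField K] [IsUltrametricDist K] [IsAlgClosed K]
    (B : Finset K) : ∃ w : K, ‖w‖ ≤ 1 ∧ ∀ β ∈ B, 1 ≤ ‖w - β‖ := by
  classical
  let S : Finset K := insert 0 (B.filter (fun β => ‖β‖ ≤ 1))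
  have hS : ∀ β ∈ S, ‖β‖ ≤ 1 := by
    intro β hβ
    rcases Finset.mem_insert.mp hβ with rfl | h
    · simp
    · exact (Finset.mem_filter.mp h).2
  let p : K[X] := ∏ β ∈ S, (X - C β)
  have hp1 : p.natDegree = S.card := by
    simp only [p]
    rw [natDegree_prod_of_monic _ _ (fun β _ => monic_X_sub_C β)]
    simp
  have hp2 : (p - 1).natDegree = S.card := by
    have h1 : (p - C 1).natDegree = p.natDegree := natDegree_sub_C
    rw [C_1] at h1
    rw [h1, hp1]
  have hcard : 1 ≤ S.card := Finset.card_pos.mpr ⟨0, Finset.mem_insert_self _ _⟩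
  obtain ⟨w, hw⟩ := IsAlgClosed.exists_root (p - 1) (by
    intro h
    have := natDegree_eq_zero_iff_degree_le_zero.mpr h.le
    omega)
  have hprod : ∏ β ∈ S, (w - β) = 1 := by
    rw [IsRoot.def, eval_sub, eval_one, sub_eq_zero] at hw
    simp only [p] at hw
    rw [eval_prod] at hw
    simpa using hw
  have hnorm : ∏ β ∈ S, ‖w - β‖ = 1 := by
    rw [← norm_prod, hprod, norm_one]
  have hw1 : ‖w‖ ≤ 1 := by
    by_contra hcon
    push Not at hcon
    have h1 : ∀ β ∈ S, ‖w - β‖ = ‖w‖ := by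
      intro β hβ
      have h2 := hS β hβ
      have h3 : ‖-β‖ < ‖w‖ := by
        rw [norm_neg]
        linarith
      have h4 := IsUltrametricDist.norm_add_eq_max_of_norm_ne_norm (ne_of_gt h3)
      rw [← sub_eq_add_neg, max_eq_left h3.le] at h4
      exact h4
    rw [Finset.prod_congr rfl h1, Finset.prod_const] at hnorm
    have := one_lt_pow₀ hcon (by omega : S.card ≠ 0)
    linarith
  have hle : ∀ β ∈ S, ‖w - β‖ ≤ 1 := by
    intro β hβ
    have h1 := IsUltrametricDist.norm_add_le_max w (-β)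
    rw [← sub_eq_add_neg, norm_neg] at h1
    exact h1.trans (max_le hw1 (hS β hβ))
  have heq := prod_ge_one S (fun β => ‖w - β‖) (fun β _ => norm_nonneg _) hle hnorm
  refine ⟨w, hw1, ?_⟩
  intro β hβ
  by_cases hb : ‖β‖ ≤ 1
  · exact (heq β (Finset.mem_insert_of_mem (Finset.mem_filter.mpr ⟨hβ, hb⟩))).ge
  · push Not at hb
    have h3 : ‖w‖ < ‖-β‖ := by
      rw [norm_neg]
      linarith
    have h4 := IsUltrametricDist.norm_add_eq_max_of_norm_ne_norm (ne_of_lt h3)
    rw [← sub_eq_add_neg, max_eq_right h3.le, norm_neg] at h4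
    rw [h4]
    exact hb.le

theorem gen : S_VAL.{u} → S_GLAM.{u} → S_GEN.{u} := by
  intro hval hglam K _ _ _ a c T B hc hT
  classical
  let B' : Finset K := B ∪ T.biUnion (fun h => h.roots.toFinset)
  obtain ⟨w', hw1, hw2⟩ := gen_unit K (B'.image (fun β => (β - a) / c))
  have hcn : 0 < ‖c‖ := norm_pos_iff.mpr hc
  set w : K := a + c * w' with hw
  have hwa : ‖w - a‖ ≤ ‖c‖ := by
    rw [hw, add_sub_cancel_left, norm_mul]
    exact mul_le_of_le_one_right hcn.le hw1
  have hwβ : ∀ β ∈ B', ‖c‖ ≤ ‖w - β‖ := by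
    intro β hβ
    have h1 := hw2 _ (Finset.mem_image_of_mem _ hβ)
    have h2 : w - β = c * (w' - (β - a) / c) := by
      rw [hw]
      field_simp
      ring
    rw [h2, norm_mul]
    exact le_mul_of_one_le_right hcn.le h1
  refine ⟨w, hwa, fun β hβ => hwβ β (Finset.mem_union_left _ hβ), ?_⟩
  intro h hh
  have h1 := hval K (cl w) h
  have h2 := hval K (gauss a ‖c‖ hcn) h
  have h3 : (cl w : BA K) h = ‖h.eval w‖ := rfl
  have h4 : (gauss a ‖c‖ hcn : BA K) h = gn a ‖c‖ h := rfl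
  rw [← h3, ← h4, h1, h2]
  congr 2
  apply Multiset.map_congr rfl
  intro v hv
  rw [(hglam K w v).1, (hglam K a v).2]
  have hvB : v ∈ B' := by
    apply Finset.mem_union_right
    rw [Finset.mem_biUnion]
    exact ⟨h, hh, Multiset.mem_toFinset.mpr hv⟩
  have h5 := hwβ v hvB
  apply le_antisymm
  · have h6 := IsUltrametricDist.norm_add_le_max (w - a) (a - v)
    rw [sub_add_sub_cancel] at h6
    refine h6.trans (max_le (hwa.trans (le_max_right _ _)) (le_max_left _ _))
  · apply max_le _ h5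
    have h6 := IsUltrametricDist.norm_add_le_max (a - w) (w - v)
    rw [sub_add_sub_cancel, norm_sub_rev a w] at h6
    exact h6.trans (max_le (hwa.trans h5) le_rfl)

end Pool.Agent.W298.BK.Gen
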