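import Pool.Agent.W95.BK.Stm

set_option autoImplicit false

open Polynomial Topology Filter MeasureTheory
open scoped ENNReal

namespace Pool.Agent.W298.BK.Invm

open Pool.Agent.W95.BK

universe u

theorem main : S_T1.{u} → S_FIBC.{u} → S_ITER.{u} → S_ACT.{u} → S_ACTC.{u} → S_AVOID.{u} →
    S_DENSE.{u} → S_GLAM.{u} → S_INVM.{u} := by
  intro ht1 hfibc hiter hact hactc havoid hdense hglam K _ _ _ R hd ρ hρ heq φ j
  set x : BA K := gauss 0 1 one_pos with hx
  have hHK : HK x := by
    intro a h
    have h1 := (hglam K 0 a).2 1 one_pos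
    rw [← hx, h, (hglam K a a).1, sub_self, norm_zero] at h1
    have := le_max_right ‖(0 : K) - a‖ (1 : ℝ)
    rw [← h1] at this
    linarith
  have hne : (toward (x : P1B K)).NeBot := hdense K x
  let ψ : C(P1B K, ℝ) := ⟨fun z => φ ((R.iter j).act z), φ.continuous.comp (hactc K (R.iter j))⟩
  have hd0 : (0 : ℝ) < (R.d : ℝ) := by
    have : 0 < R.d := by omega
    exact_mod_cast this
  have hdeg : ∀ n : ℕ, ∀ᶠ b in toward (x : P1B K),
      ((R.iter n).P - C b * (R.iter n).Q).natDegree = (R.iter n).d := by
    intro n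
    set f := R.iter n with hf
    have hPd : f.P.natDegree ≤ f.d := by
      rw [← f.deg_eq]
      exact le_max_left _ _
    have hQd : f.Q.natDegree ≤ f.d := by
      rw [← f.deg_eq]
      exact le_max_right _ _
    have hne0 : ¬ (f.P.coeff f.d = 0 ∧ f.Q.coeff f.d = 0) := by
      have h := nonvanish f.cop f.deg_eq 1 0 (by simp)
      rw [sum_eq_top, sum_eq_top] at h
      simpa using h
    have key : ∀ b : K, f.P.coeff f.d - b * f.Q.coeff f.d ≠ 0 →
        (f.P - C b * f.Q).natDegree = f.d := by
      intro b hb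
      apply le_antisymm
      · refine (natDegree_sub_le _ _).trans (max_le hPd ?_)
        exact (natDegree_C_mul_le _ _).trans hQd
      · apply le_natDegree_of_ne_zero
        rwa [coeff_sub, coeff_C_mul]
    by_cases hQ : f.Q.coeff f.d = 0
    · filter_upwards with b
      apply key
      rw [hQ, mul_zero, sub_zero]
      exact fun h => hne0 ⟨h, hQ⟩
    · filter_upwards [(havoid K x hHK).2 (f.P.coeff f.d / f.Q.coeff f.d)] with b hb
      apply key
      intro h
      apply hb
      rw [eq_div_iff hQ]
      exact (sub_eq_zero.mp h).symm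
  have hkey : ∀ n : ℕ, pushFun (R.iter (n + j)) ψ (x : P1B K)
      = (R.d : ℝ) ^ j * pushFun (R.iter n) φ (x : P1B K) := by
    intro n
    have h1 := ht1 K (R.iter (n + j)) x hHK ψ
    have h2 := (ht1 K (R.iter n) x hHK φ).const_mul ((R.d : ℝ) ^ j)
    refine tendsto_nhds_unique_of_eventuallyEq h1 h2 ?_
    filter_upwards [hdeg n] with b hb
    have e1 : fib (R.iter (n + j)) b
        = ((R.iter n).P - C b * (R.iter n).Q).roots.bind (fun z => fib (R.iter j) z) := by
      rw [(hiter K R).2.1 n j]
      exact hfibc K (R.iter n) (R.iter j) b hb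
    have e2 : fib (R.iter n) b = ((R.iter n).P - C b * (R.iter n).Q).roots.map
        (fun w => ((cl w : BA K) : P1B K)) := by
      unfold fib
      rw [hb, Nat.sub_self, Multiset.replicate_zero, add_zero]
    rw [e1, e2, Multiset.map_bind, Multiset.sum_bind, Multiset.map_map, ← Multiset.sum_map_mul_left]
    congr 1
    apply Multiset.map_congr rfl
    intro z _
    have h3 : (fib (R.iter j) z).map ψ
        = (fib (R.iter j) z).map (fun _ => φ ((cl z : BA K) : P1B K)) := by
      apply Multiset.map_congr rfl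
      intro w hw
      show φ ((R.iter j).act w) = _
      rw [(hact K (R.iter j)).2.2.2.1 z w hw]
    rw [h3, Multiset.map_const', Multiset.sum_replicate, (hact K (R.iter j)).2.2.2.2 z,
      (hiter K R).1 j, nsmul_eq_mul]
    push_cast
    rfl
  have h1 := heq x hHK φ
  have h2 := heq x hHK ψ
  have h3 := (tendsto_add_atTop_iff_nat j).mpr h2
  have h4 : (fun n => pushFun (R.iter (n + j)) ψ (x : P1B K) / (R.d : ℝ) ^ (n + j))
      = fun n => pushFun (R.iter n) φ (x : P1B K) / (R.d : ℝ) ^ n := by
    funext n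
    rw [hkey n, pow_add, mul_comm ((R.d : ℝ) ^ n) ((R.d : ℝ) ^ j),
      mul_div_mul_left _ _ (pow_pos hd0 j).ne']
  rw [h4] at h3
  exact tendsto_nhds_unique h3 h1

end Pool.Agent.W298.BK.Invm
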