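import Pool.Agent.W95.BK.Stm

set_option autoImplicit false

open Polynomial Topology Filter MeasureTheory
open scoped ENNReal

namespace Pool.Agent.W298.BK.Noat

open Pool.Agent.W95.BK

universe u

section
variable {K : Type u} [NontriviallyNormedField K]

lemma lam_nonneg (x : BA K) (a : K) : 0 ≤ lam x a := x.nonneg' _

lemma ker_coe (a : K) (s t : ℝ) (y : BA K) : ker a s t (y : P1B K)
    = Real.log (max (lam y a) t) - Real.log (max (lam y a) s) := rfl

lemma ker_infty (a : K) (s t : ℝ) : ker a s t (OnePoint.infty : P1B K) = 0 := rfl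

lemma ker_nonneg (a : K) {s t : ℝ} (hs : 0 < s) (hst : s ≤ t) (x : P1B K) :
    0 ≤ ker a s t x := by
  induction x using OnePoint.rec with
  | infty => rw [ker_infty]
  | coe y =>
    rw [ker_coe, sub_nonneg]
    apply Real.log_le_log
    · exact lt_of_lt_of_le hs (le_max_right _ _)
    · exact max_le_max le_rfl hst

lemma ker_le_coe (a : K) {s t : ℝ} (hs : 0 < s) (hst : s ≤ t) (y : BA K) :
    ker a s t (y : P1B K) ≤ Real.log (t / s) := by
  have ht : 0 < t := lt_of_lt_of_le hs hst
  rw [ker_coe, ← Real.log_div (ne_of_gt (lt_of_lt_of_le ht (le_max_right _ _)))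
    (ne_of_gt (lt_of_lt_of_le hs (le_max_right _ _)))]
  have hm : 0 < max (lam y a) s := lt_of_lt_of_le hs (le_max_right _ _)
  apply Real.log_le_log
  · exact div_pos (lt_of_lt_of_le ht (le_max_right _ _)) hm
  · rw [div_le_div_iff₀ hm hs]
    rcases le_total (lam y a) t with h | h
    · rw [max_eq_right h]
      exact mul_le_mul_of_nonneg_left (le_max_right _ _) ht.le
    · rw [max_eq_left h, max_eq_left (hst.trans h), mul_comm]
      exact mul_le_mul_of_nonneg_right hst (lam_nonneg _ _)

lemma ker_le (a : K) {s t : ℝ} (hs : 0 < s) (hst : s ≤ t) (x : P1B K) :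
    ker a s t x ≤ Real.log (t / s) := by
  induction x using OnePoint.rec with
  | infty =>
    rw [ker_infty]
    apply Real.log_nonneg
    rw [le_div_iff₀ hs]
    linarith
  | coe y => exact ker_le_coe a hs hst y

end

theorem noat : S_KER.{u} → S_KERC.{u} → S_GREEN.{u} → S_PATHI.{u} → S_NB.{u} → S_EV.{u} →
    S_NOAT.{u} := by
  intro hker hkerc hgreen hpathi _ _ K _ _ _ R hd ρ hρ heq
  have hint : ∀ (a : K) (s t : ℝ), 0 < s → s ≤ t → Integrable (ker a s t) ρ := by
    intro a s t hs hst
    have hc : Continuous (ker a s t) := hkerc K a s t hs (lt_of_lt_of_le hs hst)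
    refine Integrable.of_bound hc.measurable.aestronglyMeasurable (Real.log (t / s)) ?_
    filter_upwards with x
    rw [Real.norm_eq_abs, abs_of_nonneg (ker_nonneg a hs hst x)]
    exact ker_le a hs hst x
  obtain ⟨B, hB0, hB⟩ := hgreen K R hd
  constructor
  · -- the point at infinity
    have hle : ∀ ε : ℝ, 0 < ε → ρ.real {(OnePoint.infty : P1B K)} ≤ ε := by
      intro ε hε
      obtain ⟨δ, hδ, h⟩ := hpathi K R hd ε hε
      set s : ℝ := δ + 1 with hs
      have hs0 : 0 < s := by positivity
      have he1 : 1 < Real.exp 1 := by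
        have := Real.add_one_lt_exp (one_ne_zero (α := ℝ))
        linarith
      set t : ℝ := Real.exp 1 * s with ht
      have hst : s < t := by
        rw [ht]
        nlinarith
      have ht0 : 0 < t := hs0.trans hst
      have hlog : Real.log (t / s) = 1 := by
        rw [ht, mul_div_assoc, div_self hs0.ne', mul_one, Real.log_exp]
      have h1 := h t s ht0 hs0 (by linarith) (by linarith)
      have h2 := hker K R hd ρ hρ heq 0 s t hs0 ht0
      have h3 : ∫ x, ker (0 : K) s t x ∂ρ ≤ 1 - ρ.real {(OnePoint.infty : P1B K)} := by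
        have hm : MeasurableSet ({(OnePoint.infty : P1B K)}ᶜ) :=
          OnePoint.isClosed_infty.measurableSet.compl
        calc ∫ x, ker (0 : K) s t x ∂ρ
            ≤ ∫ x, ({(OnePoint.infty : P1B K)}ᶜ : Set (P1B K)).indicator (fun _ => (1 : ℝ)) x ∂ρ := by
              apply integral_mono (hint 0 s t hs0 hst.le)
                ((integrable_const (1 : ℝ)).indicator hm)
              intro x
              by_cases hx : x = OnePoint.infty
              · rw [Set.indicator_of_notMem (by simpa using hx)]
                simp only [hx]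
                rw [ker_infty]
              · rw [Set.indicator_of_mem (by simpa using hx)]
                have := ker_le (0 : K) hs0 hst.le x
                rwa [hlog] at this
          _ = ρ.real ({(OnePoint.infty : P1B K)}ᶜ) := by
              rw [integral_indicator_const _ hm]
              simp
          _ = 1 - ρ.real {(OnePoint.infty : P1B K)} :=
              probReal_compl_eq_one_sub OnePoint.isClosed_infty.measurableSet
      rw [abs_lt] at h1
      have h4 : Real.log t - Real.log s = 1 := by
        rw [← Real.log_div ht0.ne' hs0.ne', hlog]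
      linarith [h1.1]
    have h0 : ρ.real {(OnePoint.infty : P1B K)} = 0 :=
      le_antisymm (le_of_forall_pos_le_add fun ε hε => by simpa using hle ε hε) measureReal_nonneg
    exact (measureReal_eq_zero_iff).mp h0
  · -- classical points of the affine line
    intro c
    set D : ℝ := 2 * B + Real.log (max 1 ((gauss c 1 one_pos : BA K) X)) with hD
    have hkey : ∀ L : ℝ, 0 < L → L * ρ.real {((cl c : BA K) : P1B K)} ≤ D := by
      intro L hL
      set s : ℝ := Real.exp (-L) with hs
      have hs0 : 0 < s := Real.exp_pos _
      have hs1 : s ≤ 1 := by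
        rw [hs, Real.exp_le_one_iff]
        linarith
      have hlog : Real.log (1 / s) = L := by
        rw [one_div, Real.log_inv, hs, Real.log_exp, neg_neg]
      have h1 := mul_meas_ge_le_integral_of_nonneg
        (Eventually.of_forall (ker_nonneg c hs0 hs1)) (hint c s 1 hs0 hs1) L
      have h2 := hker K R hd ρ hρ heq c s 1 hs0 one_pos
      have h3 : ρ.real {((cl c : BA K) : P1B K)} ≤ ρ.real {x | L ≤ ker c s 1 x} := by
        refine measureReal_mono ?_ (measure_ne_top _ _)
        intro x hx
        rw [Set.mem_singleton_iff] at hx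
        subst hx
        show L ≤ ker c s 1 ((cl c : BA K) : P1B K)
        rw [ker_coe]
        have hl : lam (cl c : BA K) c = 0 := by
          show ‖(X - C c : K[X]).eval c‖ = 0
          simp
        rw [hl, max_eq_right zero_le_one, max_eq_right hs0.le, Real.log_one, zero_sub, ← hlog,
          one_div, Real.log_inv]
      have h4 := (hB (gauss c 1 one_pos)).1
      have h5 := (hB (gauss c s hs0)).1
      rw [abs_le] at h4 h5
      have h6 : 0 ≤ Real.log (max 1 ((gauss c s hs0 : BA K) X)) :=
        Real.log_nonneg (le_max_left _ _)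
      have h7 : L * ρ.real {((cl c : BA K) : P1B K)} ≤ L * ρ.real {x | L ≤ ker c s 1 x} :=
        mul_le_mul_of_nonneg_left h3 hL.le
      rw [h2] at h1
      linarith [h4.2, h5.1]
    have h0 : ρ.real {((cl c : BA K) : P1B K)} = 0 := by
      by_contra hne
      have hpos : 0 < ρ.real {((cl c : BA K) : P1B K)} :=
        lt_of_le_of_ne measureReal_nonneg (Ne.symm hne)
      have h1 := hkey ((|D| + 1) / ρ.real {((cl c : BA K) : P1B K)}) (by positivity)
      rw [div_mul_cancel₀ _ hpos.ne'] at h1
      linarith [le_abs_self D]
    exact (measureReal_eq_zero_iff).mp h0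

theorem good' : S_EV.{u} → S_NB.{u} → S_GOOD.{u} := by
  intro hev _ K _ ρ hρ a s t hs hst
  let F : P1B K → ℝ := fun x => x.elim (-1) (fun y => lam y a)
  have hF : Measurable F := by
    apply measurable_of_isOpen
    intro U hU
    have h1 : F ⁻¹' U = ((fun y : BA K => (y : P1B K)) '' {y : BA K | lam y a ∈ U}) ∪
        {x : P1B K | x = OnePoint.infty ∧ (-1 : ℝ) ∈ U} := by
      ext x
      constructor
      · intro hx
        induction x using OnePoint.rec with
        | infty => exact Or.inr ⟨rfl, hx⟩
        | coe y => exact Or.inl ⟨y, hx, rfl⟩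
      · rintro (⟨y, hy, rfl⟩ | ⟨rfl, hx⟩)
        · exact hy
        · exact hx
    rw [h1]
    apply MeasurableSet.union
    · apply IsOpen.measurableSet
      apply OnePoint.isOpenMap_coe
      exact hU.preimage (hev K (X - C a))
    · by_cases h : (-1 : ℝ) ∈ U
      · have : {x : P1B K | x = OnePoint.infty ∧ (-1 : ℝ) ∈ U} = {OnePoint.infty} := by
          ext x
          simp [h]
        rw [this]
        exact OnePoint.isClosed_infty.measurableSet
      · have : {x : P1B K | x = OnePoint.infty ∧ (-1 : ℝ) ∈ U} = ∅ := by
          ext x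
          simp [h]
        rw [this]
        exact MeasurableSet.empty
  have hcount := Measure.countable_meas_level_set_pos (μ := ρ) hF
  obtain ⟨r, hr, hrs, hrt⟩ := (hcount.dense_compl ℝ).exists_between hst
  refine ⟨r, hrs, hrt, lt_of_le_of_lt hs hrs, ?_⟩
  have h1 : ρ {x | F x = r} = 0 := by
    by_contra h
    exact hr (pos_iff_ne_zero.mpr h)
  have h2 : {x : P1B K | ∃ y : BA K, x = (y : P1B K) ∧ lam y a = r} ⊆ {x | F x = r} := by
    rintro x ⟨y, rfl, hy⟩
    exact hy
  exact measure_mono_null h2 h1

end Pool.Agent.W298.BK.Noat
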