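import Pool.Agent.W95.BK.Stm

set_option autoImplicit false

open Polynomial Topology Filter MeasureTheory
open scoped ENNReal

namespace Pool.Agent.W298.BK.Path

open Pool.Agent.W95.BK

universe u

section
variable {K : Type u} [NontriviallyNormedField K] [IsUltrametricDist K] [IsAlgClosed K]

lemma iter_d (R : RMap K) (n : ℕ) : (R.iter n).d = R.d ^ n := by
  induction n with
  | zero => rfl
  | succ n ih =>
    show (R.comp (R.iter n)).d = _
    rw [pow_succ, mul_comm, ← ih]
    rfl

/-- values at the Gauss points of centre `c` -/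
noncomputable def G (c : K) (h : K[X]) (r : ℝ) : ℝ :=
  ‖h.leadingCoeff‖ * (h.roots.map (fun w => max ‖c - w‖ r)).prod

lemma G_cont (c : K) (h : K[X]) : Continuous (G c h) := by
  unfold G
  refine continuous_const.mul ?_
  exact continuous_multiset_prod _ (fun w _ => continuous_const.max continuous_id)

lemma G_gauss (hval : S_VAL.{u}) (hglam : S_GLAM.{u}) (c : K) (h : K[X]) (r : ℝ) (hr : 0 < r) :
    (gauss c r hr : BA K) h = G c h r := by
  rw [hval K (gauss c r hr) h]
  unfold G
  congr 2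
  apply Multiset.map_congr rfl
  intro w _
  rw [(hglam K c w).2]

lemma G_zero (hval : S_VAL.{u}) (hglam : S_GLAM.{u}) (c : K) (h : K[X]) :
    G c h 0 = ‖h.eval c‖ := by
  have h1 := hval K (cl c) h
  have h2 : (cl c : BA K) h = ‖h.eval c‖ := rfl
  rw [← h2, h1]
  unfold G
  congr 2
  apply Multiset.map_congr rfl
  intro w _
  rw [(hglam K c w).1, max_eq_left (norm_nonneg _)]

/-- values at the Gauss points of centre `0`, normalised near infinity -/
noncomputable def H (D : ℕ) (h : K[X]) (u : ℝ) : ℝ :=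
  ‖h.leadingCoeff‖ * u ^ (D - h.natDegree) * (h.roots.map (fun w => max (‖w‖ * u) 1)).prod

lemma H_cont (D : ℕ) (h : K[X]) : Continuous (H D h) := by
  unfold H
  refine (continuous_const.mul (continuous_id.pow _)).mul ?_
  exact continuous_multiset_prod _
    (fun w _ => (continuous_const.mul continuous_id).max continuous_const)

lemma H_gauss (hval : S_VAL.{u}) (hglam : S_GLAM.{u}) (D : ℕ) (h : K[X]) (hD : h.natDegree ≤ D)
    (r : ℝ) (hr : 0 < r) : (gauss 0 r hr : BA K) h = r ^ D * H D h (1 / r) := by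
  rw [hval K (gauss 0 r hr) h]
  unfold H
  have hcard : Multiset.card h.roots = h.natDegree := by
    exact splits_iff_card_roots.mp (IsAlgClosed.splits h)
  have h1 : (h.roots.map (fun w => lam (gauss 0 r hr) w)).prod
      = r ^ h.natDegree * (h.roots.map (fun w => max (‖w‖ * (1 / r)) 1)).prod := by
    rw [← hcard, ← Multiset.prod_replicate, ← Multiset.map_const', ← Multiset.prod_map_mul]
    apply congrArg
    apply Multiset.map_congr rfl
    intro w _
    rw [(hglam K 0 w).2, zero_sub, norm_neg, mul_max_of_nonneg _ _ hr.le, mul_one]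
    congr 1
    field_simp
  rw [h1]
  have h2 : r ^ D = r ^ h.natDegree * r ^ (D - h.natDegree) := by
    rw [← pow_add]
    congr 1
    omega
  rw [h2]
  have h3 : r ^ (D - h.natDegree) * (1 / r) ^ (D - h.natDegree) = 1 := by
    rw [← mul_pow, mul_one_div_cancel hr.ne', one_pow]
  calc ‖h.leadingCoeff‖ * (r ^ h.natDegree * (h.roots.map (fun w => max (‖w‖ * (1 / r)) 1)).prod)
      = (r ^ (D - h.natDegree) * (1 / r) ^ (D - h.natDegree)) * (‖h.leadingCoeff‖
        * (r ^ h.natDegree * (h.roots.map (fun w => max (‖w‖ * (1 / r)) 1)).prod)) := by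
          rw [h3, one_mul]
    _ = _ := by ring

lemma H_zero_pos (D : ℕ) (h : K[X]) (hh : h ≠ 0) (hD : h.natDegree = D) : 0 < H D h 0 := by
  unfold H
  rw [← hD, Nat.sub_self, pow_zero, mul_one]
  apply mul_pos
  · exact norm_pos_iff.mpr (leadingCoeff_ne_zero.mpr hh)
  · apply Multiset.prod_pos
    intro a ha
    obtain ⟨w, _, rfl⟩ := Multiset.mem_map.mp ha
    exact lt_of_lt_of_le one_pos (le_max_right _ _)

lemma H_nonneg (D : ℕ) (h : K[X]) (u : ℝ) (hu : 0 ≤ u) : 0 ≤ H D h u := by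
  unfold H
  apply mul_nonneg (mul_nonneg (norm_nonneg _) (pow_nonneg hu _))
  apply Multiset.prod_nonneg
  intro a ha
  obtain ⟨w, _, rfl⟩ := Multiset.mem_map.mp ha
  exact zero_le_one.trans (le_max_right _ _)

/-- choice of a large iterate -/
lemma exists_n (R : RMap K) (hd : 2 ≤ R.d) (B ε : ℝ) (hε : 0 < ε) :
    ∃ n : ℕ, B / (R.d : ℝ) ^ n < ε := by
  have hd1 : (1 : ℝ) < (R.d : ℝ) := by exact_mod_cast (by omega : 1 < R.d)
  obtain ⟨n, hn⟩ := pow_unbounded_of_one_lt (B / ε) hd1
  refine ⟨n, ?_⟩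
  have hp : (0 : ℝ) < (R.d : ℝ) ^ n := by positivity
  rw [div_lt_iff₀ hε] at hn
  rw [div_lt_iff₀ hp]
  linarith

end

theorem path0 : S_GREEN.{u} → S_VAL.{u} → S_GLAM.{u} → S_PATH0.{u} := by
  intro hgreen hval hglam K _ _ _ R hd c ε hε
  obtain ⟨B, hB0, hB⟩ := hgreen K R hd
  obtain ⟨n, hn⟩ := exists_n R hd B (ε / 4) (by positivity)
  set f := R.iter n with hf
  have hD0 : (0 : ℝ) < (R.d : ℝ) ^ n := by
    have : (0 : ℝ) < (R.d : ℝ) := by exact_mod_cast (by omega : 0 < R.d)
    positivity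
  let F : ℝ → ℝ := fun r => Real.log (max (G c f.P r) (G c f.Q r)) / (R.d : ℝ) ^ n
  have hpos : 0 < max (G c f.P 0) (G c f.Q 0) := by
    rw [G_zero hval hglam, G_zero hval hglam, lt_max_iff, norm_pos_iff, norm_pos_iff]
    by_contra hcon
    push Not at hcon
    obtain ⟨a, b, hab⟩ := f.cop
    have := congrArg (eval c) hab
    simp [hcon.1, hcon.2] at this
  have hFc : ContinuousAt F 0 := by
    refine ContinuousAt.div_const ?_ _
    refine ContinuousAt.log ?_ hpos.ne'
    exact ((G_cont c f.P).max (G_cont c f.Q)).continuousAt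
  rw [Metric.continuousAt_iff] at hFc
  obtain ⟨δ, hδ, h⟩ := hFc (ε / 4) (by positivity)
  refine ⟨δ, hδ, ?_⟩
  intro r r' hr hr' hrδ hrδ'
  have key : ∀ (r : ℝ) (hr : 0 < r), r < δ → |gr R (gauss c r hr) - F 0| < ε / 2 := by
    intro r hr hrδ
    have h1 := ((hB (gauss c r hr)).2 n).2
    have h2 : Real.log (max ((gauss c r hr : BA K) (R.iter n).P)
        ((gauss c r hr : BA K) (R.iter n).Q)) / (R.d : ℝ) ^ n = F r := by
      simp only [F]
      rw [← hf, G_gauss hval hglam, G_gauss hval hglam]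
    rw [h2] at h1
    have h3 := h (x := r) (by rw [Real.dist_eq, sub_zero, abs_of_pos hr]; exact hrδ)
    rw [Real.dist_eq] at h3
    rw [abs_le] at h1
    rw [abs_lt] at h3 ⊢
    constructor <;> linarith [h1.1, h1.2, h3.1, h3.2]
  have k1 := key r hr hrδ
  have k2 := key r' hr' hrδ'
  rw [abs_lt] at k1 k2 ⊢
  constructor <;> linarith [k1.1, k1.2, k2.1, k2.2]

theorem pathi : S_GREEN.{u} → S_VAL.{u} → S_GLAM.{u} → S_PATHI.{u} := by
  intro hgreen hval hglam K _ _ _ R hd ε hε
  obtain ⟨B, hB0, hB⟩ := hgreen K R hd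
  obtain ⟨n, hn⟩ := exists_n R hd B (ε / 4) (by positivity)
  set f := R.iter n with hf
  have hfd : f.d = R.d ^ n := iter_d R n
  have hD0 : (0 : ℝ) < (R.d : ℝ) ^ n := by
    have : (0 : ℝ) < (R.d : ℝ) := by exact_mod_cast (by omega : 0 < R.d)
    positivity
  have hDc : ((f.d : ℕ) : ℝ) = (R.d : ℝ) ^ n := by
    rw [hfd]
    push_cast
    rfl
  have hPd : f.P.natDegree ≤ f.d := by
    rw [← f.deg_eq]
    exact le_max_left _ _
  have hQd : f.Q.natDegree ≤ f.d := by
    rw [← f.deg_eq]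
    exact le_max_right _ _
  let F : ℝ → ℝ := fun u => Real.log (max (H f.d f.P u) (H f.d f.Q u)) / (R.d : ℝ) ^ n
  have hpos : 0 < max (H f.d f.P 0) (H f.d f.Q 0) := by
    rw [lt_max_iff]
    have hf1 := f.pos
    rcases max_cases f.P.natDegree f.Q.natDegree with ⟨h, _⟩ | ⟨h, _⟩
    · rw [f.deg_eq] at h
      left
      apply H_zero_pos _ _ _ h.symm
      intro h0
      rw [h0, natDegree_zero] at h
      omega
    · rw [f.deg_eq] at h
      right
      apply H_zero_pos _ _ _ h.symm
      intro h0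
      rw [h0, natDegree_zero] at h
      omega
  have hcm : Continuous (fun u => max (H f.d f.P u) (H f.d f.Q u)) :=
    (H_cont f.d f.P).max (H_cont f.d f.Q)
  have hFc : ContinuousAt F 0 := by
    refine ContinuousAt.div_const ?_ _
    exact ContinuousAt.log hcm.continuousAt hpos.ne'
  have hev : ∀ᶠ u in 𝓝 (0 : ℝ), 0 < max (H f.d f.P u) (H f.d f.Q u) :=
    hcm.continuousAt.eventually (lt_mem_nhds hpos)
  rw [Metric.continuousAt_iff] at hFc
  obtain ⟨δ, hδ, h⟩ := hFc (ε / 4) (by positivity)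
  obtain ⟨δ', hδ', h'⟩ := Metric.eventually_nhds_iff.mp hev
  refine ⟨1 / min δ δ', by positivity, ?_⟩
  intro r r' hr hr' hrδ hrδ'
  have hmin : 0 < min δ δ' := lt_min hδ hδ'
  have key : ∀ (r : ℝ) (hr : 0 < r), 1 / min δ δ' < r →
      |(gr R (gauss 0 r hr) - Real.log r) - F 0| < ε / 2 := by
    intro r hr hrδ
    have hu : 1 / r < min δ δ' := by
      rw [div_lt_iff₀ hmin] at hrδ
      rw [div_lt_iff₀ hr]
      linarith
    have hu0 : 0 < 1 / r := by positivity
    have h1 := ((hB (gauss 0 r hr)).2 n).2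
    have hpu : 0 < max (H f.d f.P (1 / r)) (H f.d f.Q (1 / r)) := h' (by
      rw [Real.dist_eq, sub_zero, abs_of_pos hu0]
      exact lt_of_lt_of_le hu (min_le_right _ _))
    have h2 : Real.log (max ((gauss 0 r hr : BA K) (R.iter n).P)
        ((gauss 0 r hr : BA K) (R.iter n).Q)) / (R.d : ℝ) ^ n = F (1 / r) + Real.log r := by
      simp only [F]
      rw [← hf, H_gauss hval hglam f.d f.P hPd, H_gauss hval hglam f.d f.Q hQd,
        ← mul_max_of_nonneg _ _ (pow_nonneg hr.le _),
        Real.log_mul (pow_pos hr _).ne' hpu.ne', Real.log_pow, hDc]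
      field_simp
      ring
    rw [h2] at h1
    have h3 := h (x := 1 / r) (by
      rw [Real.dist_eq, sub_zero, abs_of_pos hu0]
      exact lt_of_lt_of_le hu (min_le_left _ _))
    rw [Real.dist_eq] at h3
    rw [abs_le] at h1
    rw [abs_lt] at h3 ⊢
    constructor <;> linarith [h1.1, h1.2, h3.1, h3.2]
  have k1 := key r hr hrδ
  have k2 := key r' hr' hrδ'
  rw [abs_lt] at k1 k2 ⊢
  constructor <;> linarith [k1.1, k1.2, k2.1, k2.2]

end Pool.Agent.W298.BK.Path
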