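import Pool.Agent.W95.BK.Stm

set_option autoImplicit false

open Polynomial Topology Filter MeasureTheory
open scoped ENNReal

namespace Pool.Agent.W298.BK.Prz

open Pool.Agent.W95.BK

universe u

theorem main : S_ONE.{u} → S_INVX.{u} → S_ITER.{u} → S_FUNC.{u} → S_PRZ.{u} := by
  intro hone hinv hiter hfunc K _ _ _ R hd
  obtain ⟨B, hB1, hB⟩ := hone K R
  refine ⟨B, hB1, ?_⟩
  intro n hn x hx
  obtain ⟨y1, hy1, hxf1, _⟩ := hinv K R n x hd hn hx
  have hB0 : 0 ≤ B := by linarith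
  have hind : ∀ i : ℕ, ∃ y : BA K, (R.iter i).act (y1 : P1B K) = (y : P1B K) ∧
      XF (R.iter n) y ∧ dl y ≤ B ^ i * dl y1 := by
    intro i
    induction i with
    | zero =>
      refine ⟨y1, ?_, hxf1, ?_⟩
      · show (RMap.id K).act (y1 : P1B K) = y1
        exact (hfunc K).2 _
      · simp
    | succ i ih =>
      obtain ⟨y, hy, hxf, hdl⟩ := ih
      obtain ⟨z, hz, hxfz, _⟩ := hinv K R n y hd hn hxf
      refine ⟨z, ?_, hxfz, ?_⟩
      · show (R.comp (R.iter i)).act (y1 : P1B K) = z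
        rw [(hfunc K).1, hy, hz]
      · have h1 := (hB y z hxf.1 hz).2.2.1
        calc dl z ≤ B * dl y := h1
          _ ≤ B * (B ^ i * dl y1) := mul_le_mul_of_nonneg_left hdl hB0
          _ = B ^ (i + 1) * dl y1 := by rw [pow_succ]; ring
  obtain ⟨y, hy, _, hdl⟩ := hind (n - 1)
  have hyx : y = x := by
    have e1 : (R.iter (n - 1)).act (y1 : P1B K) = (x : P1B K) := by
      rw [← hy1, ← (hfunc K).1, ← (hiter K R).2.2.1]
      have e2 : R.comp (R.iter (n - 1)) = R.iter n := by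
        obtain ⟨k, rfl⟩ : ∃ k, n = k + 1 := ⟨n - 1, by omega⟩
        rfl
      rw [e2]
      exact hx.2.1
    rw [hy] at e1
    exact OnePoint.coe_injective e1
  rw [hyx] at hdl
  have hstep := hB x y1 hx.1 hy1
  have hx0 : 0 < dl x := hstep.1
  have hpow : B ^ (n - 1) * B = B ^ n := by
    rw [← pow_succ]
    congr 1
    omega
  have hBp : 0 ≤ B ^ (n - 1) := pow_nonneg hB0 _
  constructor
  · intro c hc
    have h1 := hstep.2.2.2.1 c hc
    have h2 : dl x ≤ (B ^ n * (1 + ‖c‖) ^ (2 * R.d) * lam x c) * dl x := by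
      calc dl x ≤ B ^ (n - 1) * dl y1 := hdl
        _ ≤ B ^ (n - 1) * (B * (1 + ‖c‖) ^ (2 * R.d) * lam x c * dl x) :=
          mul_le_mul_of_nonneg_left h1 hBp
        _ = (B ^ (n - 1) * B) * (1 + ‖c‖) ^ (2 * R.d) * lam x c * dl x := by ring
        _ = _ := by rw [hpow]
    by_contra hcon
    push Not at hcon
    nlinarith
  · intro hw
    have h1 := hstep.2.2.2.2.1 hw
    have hM : 0 < max 1 (x X) := lt_of_lt_of_le one_pos (le_max_left _ _)
    have h2 : dl x ≤ B ^ n * dl x / max 1 (x X) := by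
      calc dl x ≤ B ^ (n - 1) * dl y1 := hdl
        _ ≤ B ^ (n - 1) * (B * dl x / max 1 (x X)) := mul_le_mul_of_nonneg_left h1 hBp
        _ = (B ^ (n - 1) * B) * dl x / max 1 (x X) := by ring
        _ = _ := by rw [hpow]
    rw [le_div_iff₀ hM] at h2
    by_contra hcon
    push Not at hcon
    nlinarith

end Pool.Agent.W298.BK.Prz
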