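import Pool.Agent.W622.BK.Stm

/-! # Bloch-Kato Lie algebras: part VAN -/

set_option autoImplicit false

namespace Pool.Agent.W298.BK

open Module Pool.Agent.W622.BK

universe u

theorem skew {k : Type u} [Field k] {E : Type u} [AddCommGroup E] [Module k E]
    {R : Submodule k (E →ₗ[k] E →ₗ[k] k)} (hA : Alt R) {r : E →ₗ[k] E →ₗ[k] k} (hr : r ∈ R)
    (e e' : E) : r e e' = - r e' e := by
  have h1 := hA r hr (e + e')
  have h2 := hA r hr e
  have h3 := hA r hr e'
  simp only [map_add, LinearMap.add_apply] at h1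
  rw [h2, h3] at h1
  rw [eq_neg_iff_add_eq_zero]
  simpa [add_comm] using h1

theorem t_VAN : S_VAN.{u} := by
  intro k _ E _ _ R hAlt hbot hSur X u n hD
  by_cases h : ∃ x' ∈ X, x' u ≠ 0
  · obtain ⟨x', hx', hne⟩ := h
    rw [eq_bot_iff]
    intro η hη
    obtain ⟨w, hw, hcur⟩ := hSur X u ((x' u)⁻¹ • x') (X.smul_mem _ hx')
      (by rw [LinearMap.smul_apply, smul_eq_mul, inv_mul_cancel₀ hne]) (n + 1) η hη
    rw [hD, Submodule.mem_bot] at hw
    rw [Submodule.mem_bot, ← hcur, hw, map_zero, LinearMap.zero_apply]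
  · push Not at h
    have hN : Nn R X u = ⊥ := by
      rw [eq_bot_iff]
      intro f hf
      obtain ⟨r, hr, rfl⟩ := hf
      rw [Submodule.mem_bot]
      ext e
      change r u e = 0
      rw [skew hAlt hr.1, h (r e) (hr.2 e), neg_zero]
    rw [hN]
    exact hbot n

end Pool.Agent.W298.BK
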